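import Pool.Agent.H89.MW.Closed
import Pool.Agent.H89.Dev.Torus

/-!
# The monodromy-weight conjecture, torus actions and equations with few monomials

Let `K` be a local field of characteristic zero whose residue field has `q` elements, `ℓ` a prime
different from the residue characteristic, `Ω` an algebraic closure of `ℚ_ℓ`, and `k` a subfield of `K`
(for example `k = K`). For a scheme `X` over `k` let `H n w X = gr^W_w H^n_c(X_{\bar K}, Ω)` be the graded
piece of weight `w` of the weight filtration of the cohomology with compact supports, as a
representation of the Galois group of `K` (of which we only record the action of a geometric Frobenius
element and the logarithm `N` of the monodromy). We say that `X` has mw pure cohomology with compact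
supports (`AllPure`) if `gr^W_w H^n_c(X)` is mw pure of weight `w` for all `n` and `w`. For smooth
proper `X` this is the assertion of the monodromy-weight conjecture for `X`.

Let `X` be a closed subscheme of an affine space which is stable under a torus acting diagonally. It is
of complexity at most `n` if each stratum of `X` (given by the vanishing and non-vanishing of the
coordinates) has dimension at most `n` plus the dimension of the orbits of the torus in the stratum.
There is no restriction on the dimension and on the singularities of `X`.

**Theorem.** Let `Q` be the class of smooth projective varieties over `k` (or any class of smooth proper
varieties in which every variety of dimension at most `n` has a birational model). The monodromy-weight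
conjecture for the varieties of the class `Q` of dimension at most `n` is equivalent to each one of the
following statements:

* all torus schemes of complexity at most `n`, and all schemes which are built from them by closed-open
  decompositions, have mw pure cohomology with compact supports;
* all separated schemes of finite type of dimension at most `n` have mw pure cohomology with compact
  supports.

It implies that the following schemes, of arbitrary dimension and degree and with arbitrary
singularities, have mw pure cohomology with compact supports:

* the schemes given by `c` linearly independent equations which have together at most `c + n + 1`
  monomials, and by any number of additional equations with at most two terms, in an affine space of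
  arbitrary dimension (`Sparse n`);
* the inverse images of the cones of dimension at most `n + 1` under all monomial maps between affine
  spaces, also with additional equations with at most two terms (`Cones n`).

By the theorem of Rapoport and Zink (the conjecture in dimension at most two) this holds for `n = 2`: the
monodromy-weight conjecture is true for the graded pieces of the weight filtration of the cohomology with
compact supports of every system of `c` linearly independent equations with at most `c + 3` monomials,
for example of every hypersurface whose equation has at most four terms. The first open case,
`n = 3`, is equivalent to the conjecture for threefolds. In comparison, the conjecture is known for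
smooth projective complete intersections in toric varieties (Scholze).

The proof combines the closure properties of the class of the schemes with mw pure cohomology with
compact supports (in an exact sequence of five representations the one in the middle is mw pure of
weight `w` if the other four are) with the universality theorem for torus actions of earlier work.
-/

set_option autoImplicit false

open CategoryTheory AlgebraicGeometry Pool.Agent.Y116.UV Pool.Agent.H89.Dev Pool.Agent.H89.MW
  Pool.Agent.W5h38.TV Pool.Agent.W5h68.SP

universe u v

namespace Pool.Agent.Results.MP_855f4c_ag.FewMonomials

/-- **The monodromy-weight conjecture, torus actions of complexity at most `n` and equations with few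
monomials.** See the explanations above. -/
theorem result {k : Type} [Field k] [CharZero k] {Ω : Type u} [Field Ω] [CharZero Ω]
    [IsAlgClosed Ω] {q : ℕ} (hq : 1 < q) {H : ℤ → ℤ → Sch k → Rep.{u, v} Ω}
    (hH : IsWeightCohomology q H) {Q : Sch k → Prop} (hQ : IsClass Q) {n : ℕ}
    (hM : ModelsIn Q n) :
    (ForClass Q (MonodromyWeight q H) n ↔ ∀ X : Sch k, Built n X → AllPure q H X) ∧
    (ForClass Q (MonodromyWeight q H) n ↔
      ∀ X : Sch k, FT True X → topologicalKrullDim X.left ≤ n → AllPure q H X) ∧
    (ForClass Q (MonodromyWeight q H) n → Sparse n (AllPure q H) ∧ Cones n (AllPure q H)) := by
  have hP := bnd_allPure hq hH
  have h0 := forClass_iff hH hQ n
  refine ⟨h0.trans (class_iff_built hP hQ hM), ⟨fun h => devissage hP hQ hM (h0.mp h), fun h => ?_⟩,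
    fun h => ⟨sparse_of_class hP hQ hM (h0.mp h), cones_of_class hP hQ hM (h0.mp h)⟩⟩
  exact h0.mpr fun X hX hn => h X (hQ.ft hX) hn

end Pool.Agent.Results.MP_855f4c_ag.FewMonomials
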