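import Pool.Agent.H88.VH.Fin
import Pool.Agent.H88.VH.Tilt
import Pool.Agent.H88.VH.B0
import Pool.Agent.H88.VH.B2
import Pool.Agent.H88.VH.B4
import Pool.Agent.H88.VH.C1
import Pool.Agent.H88.VH.D
import Pool.Agent.H88.VH.E1
import Pool.Agent.H88.VH.E2
import Pool.Agent.H88.VH.G2
import Pool.Agent.H88.VG.A1
import Pool.Agent.H88.VG.A2
import Pool.Agent.H88.VG.A3
import Pool.Agent.H88.VG.A6
import Pool.Agent.H88.VG.C2
import Pool.Agent.H88.VG.D1
import Pool.Agent.H88.VG.D2
import Pool.Agent.H88.VG.E3
import Pool.Agent.H88.VG.G1
import Pool.Agent.H88.VG.G3
import Pool.Agent.H88.VL.W1

/-!
# The monodromy-weight conjecture for complete intersections in products of Grassmannians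

Let `k₀` be a finite extension of `ℚ_p`, `K` the completion of `k₀(ϖ^(1/p^∞))`, `C` the completion of an
algebraic closure of `K`, `E = K♭` and `F = C♭` the tilts. The wild inertia group being pro-`p`, the
cohomology of a smooth projective variety over `k₀` is mw pure if and only if it is so for the action of
the Galois group of `K`. The structures `Tilting` and `BaseField` (starting library,
`MP_db3ab1_ag`) describe the tilts. A closed subset, defined over `K`, of a product of Grassmannians over
`C` is given by its points, which are tuples of subspaces of `C^n` (`GSet`, `GSet.IsClosed`). `Theory` and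
`Ladic` describe the `ℓ`-adic cohomology (`T`; over `E` and `F`: `T'`), a graded-commutative algebra with
the action of a geometric Frobenius element and the derivation `N`, the logarithm of the monodromy, by
its known properties:
* functoriality for the morphisms which forget, repeat and rename factors; Chern classes of the
  tautological bundles and the Whitney formula;
* proper descent for a morphism which is bijective over the complement of a closed set;
* the cohomology of the projective bundle of the lines in a tautological bundle is generated by the
  powers of the hyperplane class;
* tubular neighbourhoods and tilting (`Tubes`; Huber, Scholze): let `Z` be the set of the common zeros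
  of multihomogeneous polynomials `h_1, …, h_c` in `(ℙ^(n-1))^k`. There is `ε > 0` such that for all sets
  `Y` of common zeros of multihomogeneous polynomials over `E` with `|h_j(t♯)| ≤ ε` for all normalised
  `t ∈ Y` there is a homomorphism from the cohomology of `Z` to the cohomology of `Y` which respects the
  hyperplane classes and the operators;
* a property of the cohomology in characteristic `p` (`PureCycle`; Deligne, de Jong, Fulton): let `Y` be
  the set of the common zeros of `c` multihomogeneous polynomials `g_j` over `E` in `(ℙ^(n-1))^k`. There
  is a homomorphism from the cohomology of `Y` to an algebra which is mw pure in all degrees, with a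
  trace, such that the traces of the monomials of degree `D = k (n - 1) - c` in the hyperplane classes are
  the intersection numbers with the divisors `g_j = 0`. (The algebra is the product of the cohomology
  algebras of regular alterations of the components of a cycle of dimension `D` on `Y` which represents
  the intersection of these divisors.)
The existence of polynomials `g_j` over `E`, of multidegrees `p^(M j)` times the ones of the `h_j`, whose
zeros are in the neighbourhood is proved here, for all `ε`.

**Theorem.** Let `h_1, …, h_c` be polynomials over `K` in the coordinates of `k` vectors `v_p` of `C^n`,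
which are distributed over `m` blocks of sizes `k_1, …, k_m` by a map `β`, and let `X` be the set of the
`m`-tuples of subspaces `L_i` of `C^n` of dimensions `k_i` such that `h_j(v) = 0` for all `j` and all
`v` with `v_p ∈ L_(β p)`. Suppose that the cohomology of `X` satisfies Poincare duality in dimension
`d = ∑ k_i (n - k_i) - c` (for example, that `X` is smooth and irreducible of this dimension).
1. If the `h_j` are forms of multidegrees `a_j` in the Pluecker coordinates of the blocks, so that
   `X` is the complete intersection of the hypersurfaces `h_j = 0` in the product of the Grassmannians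
   `G(k_i, n)`, and if the multidegrees satisfy the condition `Positive` (which holds if all `a_(j i)` are
   positive, and always if `X` is not empty and of dimension `d`), the cohomology of `X` is mw pure of
   weight `i` in all degrees `i`.
2. The same holds if the `h_j` are multihomogeneous, the set of their zeros is closed under
   `v ↦ g v` for all block matrices `g` (`Saturated`), and for some integers `w_i` the intersection
   number of the power of degree `d` of `∑ w_(β p) x_p`, of the divisors of the multidegrees of the
   `h_j` and of `∏ (x_p - x_l)^2` (over the pairs in the same block) in `(ℙ^(n-1))^k` is not zero (it is,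
   up to the sign, the product of the `k_i!` times the degree of `X` for the line bundle given by the
   `w_i`, by the theorem of Martin).

Examples for (2) (not part of the formal statement): smooth complete intersections in flag varieties
of classical groups (a flag `L_1 ⊂ L_2` is given by `L_1` and the annihilator of `L_2` with the equations
`⟨v, w⟩ = 0`, and isotropic subspaces by `b(v, v') = 0`); smooth determinantal varieties of the expected
dimension (pairs of a point `x` and a subspace of dimension `r` of the kernel of `A(x)`); varieties of
the linear subspaces of complete intersections. Scholze's theorem (complete intersections in toric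
varieties) does not apply to these varieties.

Proof. For `s ≤ k` let `Z_s` be the set of the tuples consisting of subspaces `M_i`, of dimension the
number of the `p < s` in the block `i`, and of lines `x_p`, `p ≥ s`, such that the `h_j` are zero at all
`v` with `v_p ∈ M_(β p)` for `p < s` and `v_p ∈ x_p` for `p ≥ s`; so `Z_k = X`, and `Z_0` is the set of the
zeros of the `h_j` in `(ℙ^(n-1))^k`. For the step from `Z_(p+1)` to `Z_p` let `M = M_(β p)` and let `Q` be the
set of the points of `Z_(p+1)` together with a hyperplane `M'` and a line `x` in `M`. The map `Q → Z_p`
which forgets `M` is bijective over the complement of the set `B` given by `x ⊂ M'`. The class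
`E = c_r(M' ⊗ x^∨)`, `r = dim M'`, a polynomial in the Chern classes, vanishes on `B`; hence for each
class `v` on `Z_(p+1)` the class `v E` on `Q` comes from a unique class `φ(v)` on `Z_p` which vanishes on
`B`, and `φ(u) φ(v) = φ_2(u v)`. By the Whitney formula and the relation in the projective bundle, the
composition of the maps `φ_2` maps `(∑ w_i c_1)^d` to the class
`(∑ w_(β p) x_p)^d ∏ (x_p - x_l)^2` on `Z_0`. Its trace in the pure algebra given by tilting is the
intersection number of (2). Since it is not zero, duality shows that the cohomology of `X` is, up to a
Tate twist, a direct summand of a mw pure module. For complete intersections the intersection number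
is a positive combination of products of determinants of matrices `1 / (n - 1 - i - j)!`.
-/

set_option autoImplicit false

open MvPolynomial Pool.Agent.Y129.TA Pool.Agent.Y129.TB Pool.Agent.H88.VL
open Pool.Agent.H88.VG (MultiHom inter Theory)
open Pool.Agent.H88.VH

universe u v

namespace Pool.Agent.Results.MP_855f4c_ag.ProductsOfGrassmannians

theorem steps : Steps.{u, v} where
  a1 := Pool.Agent.H88.VG.A1.main
  a2 := Pool.Agent.H88.VG.A2.main
  a3 := Pool.Agent.H88.VG.A3.main_a
  a4 := Pool.Agent.H88.VG.A3.main_b
  a5 := Pool.Agent.H88.VG.A3.main_c
  a6 := Pool.Agent.H88.VG.A6.main
  b0 := B0.main_a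
  b1 := B0.main_b
  b2 := B2.main
  b4a := B4.main_a
  b4b := B4.main_b
  c1 := C1.main
  c2 := Pool.Agent.H88.VG.C2.main_a
  c3 := Pool.Agent.H88.VG.C2.main_b
  d1 := Pool.Agent.H88.VG.D1.main
  d2 := Pool.Agent.H88.VG.D2.main_a
  d3 := D.main_a
  d4 := D.main_b
  f1 := Pool.Agent.H88.VG.E3.main_b
  g1 := Pool.Agent.H88.VG.G1.main
  g2 := G2.main
  g3 := Pool.Agent.H88.VG.G3.main_a
  g4 := Pool.Agent.H88.VG.G3.main_b
  w1b := W1.main1b

/-- **The monodromy-weight conjecture for complete intersections in products of Grassmannians.** See
the explanations above. -/
theorem result {p : ℕ} [Fact p.Prime] {C F K E : Type} [Field C] [Field F] [CharP F p] [Field K]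
    [Field E] [Algebra K C] [Algebra E F] [IsAlgClosed C] [IsAlgClosed F] {𝓣 : Tilting p C F}
    (hB : BaseField 𝓣 K E) {Ω : Type v} [Field Ω] [CharZero Ω] {q : ℕ} (hq : 1 < q)
    {n k m c d : ℕ} (hn : 0 < n) (β : Fin k → Fin m) (hs : ∀ i, size β i ≤ n)
    (hd : d + c = grDim n β) {T : Theory.{u, v} C n Ω} {T' : Theory.{u, v} F n Ω}
    (hT : Ladic 𝓣 K E q T T')
    (h : Fin c → MvPolynomial (Fin k × Fin n) K) (hP : (T.coh (prodGrass C h β)).IsPoincare d) :
    (∀ a : Fin c → Fin m → ℕ, (∀ j, IsPlueckerForm C β (h j) (a j)) → Positive n β a d →
      ∀ i, (T.coh (prodGrass C h β)).MWPure q i) ∧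
    (∀ a : Fin c → Fin k → ℕ, (∀ j, MultiHom (h j) (a j)) → Saturated C h β →
      (∃ w : Fin m → ℤ, inter n a (weyl β w d) ≠ 0) →
      ∀ i, (T.coh (prodGrass C h β)).MWPure q i) := by
  have W := steps.{u, v}
  refine ⟨fun a ha hpos i => ?_, fun a hh sat ⟨w, hI⟩ i =>
    main_of W hB hq hT.old hn hh sat hs hd hI hP i⟩
  have hinf : Infinite C := IsAlgClosed.instInfinite
  obtain ⟨h1, h2⟩ := E2.main C K k m n c h β a ha
  exact main_of W hB hq hT.old hn h1 h2 hs hd (E1.main k m n c d β a hs hpos) hP i

end Pool.Agent.Results.MP_855f4c_ag.ProductsOfGrassmannians
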