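import Pool.Agent.H91.QS.Main
import Pool.Agent.H79.MW.Rep
import Pool.Agent.H89.MW.Closed

/-!
# The monodromy-weight conjecture and systems of quadratic equations

Let `K` be a local field of characteristic zero whose residue field has `q` elements, `ℓ` a prime
different from the residue characteristic, `Ω` an algebraic closure of `ℚ_ℓ`, and `k` a subfield of `K`
(for example `k = K`). For a scheme `X` over `k` let `H n w X = gr^W_w H^n_c(X_{\bar K}, Ω)` be the graded
piece of weight `w` of the weight filtration of the cohomology with compact supports, as a
representation of the Galois group of `K` (of which we only record the action of a geometric Frobenius
element and the logarithm `N` of the monodromy). We say that `X` has mw pure cohomology with compact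
supports (`AllPure`) if `gr^W_w H^n_c(X)` is mw pure of weight `w` for all `n` and `w`. For smooth
proper `X` this is the assertion of the monodromy-weight conjecture for `X`.

Let `Built k n` be the smallest class of schemes which contains the affine schemes of dimension at most
`n` and is closed under closed-open decompositions (two out of three), affine bundles (in both
directions), division by `𝔾_m` and descent along the finite étale coverings `s ^ d = u`.

**Theorem.** Let `Q` be the class of smooth projective varieties over `k` (or any class of smooth proper
varieties in which every variety of dimension at most `n` has a birational model).

* `Built k n` contains all schemes given by `r + 1` quadratic equations and any number of linear equations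
  in any number of variables over an affine base `Spec A`, if `dim A + r ≤ n`. It contains all closed
  subschemes of projective spaces which are the intersection of `n + 1` quadrics and hyperplanes.
* The monodromy-weight conjecture for the varieties of the class `Q` of dimension at most `n` is
  equivalent to the statement that all schemes in `Built k n` have mw pure cohomology with compact
  supports; and it implies the conjecture for all varieties of the class `Q` which are in `Built k n`, of
  any dimension.
* If the affine schemes given by `n + 2` quadratic equations over `k` have mw pure cohomology with compact
  supports, then the monodromy-weight conjecture is true for the varieties of the class `Q` of dimension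
  at most `n`.

By the theorem of Rapoport and Zink the conjecture is true in dimension at most two. So it is true for
all smooth projective varieties, of any dimension, which have a decomposition into locally closed pieces
each given by quadratic equations over a surface, by two quadratic equations over a curve, or by three
quadratic equations over `k`, and by any number of linear equations: for example for all intersections of
three quadrics (complete or not), all families of intersections of two quadrics over curves, and all
quadric fibrations over surfaces, with arbitrary degenerate fibres. In comparison, the conjecture is known
for smooth projective complete intersections in toric varieties (Scholze). The conjecture for all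
smooth projective threefolds is implied by mw purity for all systems of five quadratic equations, and it
implies mw purity for all systems of four quadratic equations.

Proof. If `q_0, …, q_r` are polynomials of degree two on the base times an affine space, then the
hypersurface `∑ y_l q_l(x) = 1` is an affine bundle over the complement of `q = 0`. By scaling `y` one
reduces it to families of affine quadrics over a base whose dimension is larger by `r`, and affine
quadrics over a field are, up to coverings of degree two and descent, built from the base. In an exact
sequence of five representations the one in the middle is mw pure of weight `w` if the other four are.
-/

set_option autoImplicit false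

open CategoryTheory AlgebraicGeometry Pool.Agent.Y116.UV Pool.Agent.W5h93.EX Pool.Agent.H89.MW
  Pool.Agent.H79.MW Pool.Agent.W5h68.SP Pool.Agent.H91.QS

universe u v

namespace Pool.Agent.Results.MP_855f4c_ag.QuadraticSystems

/-- For a unit `u` of `A` the graded pieces of the cohomology of `Spec A` are direct factors of those of
its finite étale covering `Spec A[s] / (s ^ d - u)`. -/
def CoveringFactor {k : Type} [Field k] {Ω : Type u} [Field Ω] (H : ℤ → ℤ → Sch k → Rep.{u, v} Ω) :
    Prop :=
  ∀ (A : Type) [CommRing A] [Algebra k A] [Algebra.FiniteType k A] (d : ℕ) (u : A), 0 < d →
    IsUnit u → ∀ n w, IsFactor (H n w (aff k A)) (H n w (aff k (Cyc A d u)))

/-- **The monodromy-weight conjecture and systems of quadratic equations.** See the explanations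
above. -/
theorem result {k : Type} [Field k] [CharZero k] {Ω : Type u} [Field Ω] [CharZero Ω]
    [IsAlgClosed Ω] {q : ℕ} (hq : 1 < q) {H : ℤ → ℤ → Sch k → Rep.{u, v} Ω}
    (hH : IsWeightCohomology q H) (hc : CoveringFactor H) {Q : Sch k → Prop} (hQ : IsClass Q) :
    QuadReduces Q (MonodromyWeight q H) (AllPure q H) ∧
      ∀ n, AffineQuadrics k n (Built k n) ∧ ProjectiveQuadrics k n (Built k n) :=
  ⟨quadReduces (bnd_allPure hq hH) (fun A _ _ _ d u hd hu h n w =>
      IsPure.factor hq (hH.isLocal _ _ _) (hH.isLocal _ _ _) (hc A d u hd hu n w) (h n w)) hQ
      fun X hX => (allPure_iff hH (hQ.smooth X hX) (hQ.proper X hX)).symm,
    fun n => ⟨affineQuadrics_built two_ne_zero n, projectiveQuadrics_built two_ne_zero n⟩⟩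

end Pool.Agent.Results.MP_855f4c_ag.QuadraticSystems
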