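import Pool.Agent.H79.MW.Main

/-!
# The monodromy-weight conjecture for products and for systems of equations between read-once formulas

Let `K` be a local field of characteristic zero whose residue field has `q` elements, `ℓ` a prime
different from the residue characteristic, `Ω` an algebraic closure of `ℚ_ℓ`, and `k` a subfield of `K`
(for example `k = K`). For a scheme `X` over `k` let `H n w X = gr^W_w H^n_c(X_{\bar K}, Ω)` be the graded
piece of weight `w` of the weight filtration of the cohomology with compact supports, as a
representation of the Galois group of `K` (of which we only record the action of a geometric Frobenius
element and the logarithm `N` of the monodromy). We say that `X` has mw pure cohomology with compact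
supports (`AllPure`) if `gr^W_w H^n_c(X)` is mw pure of weight `w` for all `n` and `w`. For smooth
proper `X` this is the assertion of the monodromy-weight conjecture for `X`.

The class `Built k n` is the smallest class of separated schemes of finite type over `k` which contains
all affine schemes of dimension at most `n` and is closed under products of affine schemes, closed-open
decompositions (two out of three), isomorphisms, products with the affine line, descent along the
finite étale coverings `s ^ d = u`, `u` a unit, and division by `𝔾_m`. It contains schemes of arbitrary
dimension.

**Theorem.** Let `Q` be the class of smooth projective varieties over `k` (or any class of smooth proper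
varieties in which every variety of dimension at most `n` has a birational model).

(1) The monodromy-weight conjecture for the varieties of the class `Q` of dimension at most `n` is
equivalent to the statement that all schemes of the class `Built k n` have mw pure cohomology with
compact supports.

(2) If the conjecture is true for the varieties of the class `Q` of dimension at most `n`, then the
following schemes, of arbitrary dimension and degree and with arbitrary singularities, have mw pure
cohomology with compact supports: the closed subschemes `h(f_1, …, f_r) = 0`, `h ∈ S`, of affine spaces,
where `f_1, …, f_r` are polynomials in disjoint sets of variables given by read-once formulas with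
quasi-homogeneous gates in at most `n + 1` variables, and the scheme `S = 0` has dimension at most `n`;
and the closed subschemes of projective spaces given by such equations, if `f_1, …, f_r` are
homogeneous, the elements of `S` are homogeneous for the weights `deg f_i`, and the cone `S = 0` has
dimension at most `n + 1`. So the smooth ones among the projective schemes satisfy the
monodromy-weight conjecture.

By the theorem of Rapoport and Zink (the conjecture in dimension at most two) the conclusion of (2) holds
for `n = 2`. For example, let `f_1, …, f_r` be forms of the same degree in three variables each (or sums
of such forms in disjoint sets of variables), and let `Y ⊂ ℙ^{r-1}` be a closed surface, given by forms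
`h ∈ S`. Then the projective scheme `h(f_1, …, f_r) = 0`, `h ∈ S`, of dimension `2 r + 2` (or more), the
union of the inverse image of `Y` under the rational map `(f_1 : … : f_r)` and of its base locus, has mw
pure cohomology; it is in general singular and not a complete intersection. Another example: the smooth
affine schemes `(f_1, …, f_r)(x) ∈ Y` for nonsingular forms `f_i` and smooth closed surfaces `Y` in
`𝔾_m^r`. In comparison, the conjecture is known for smooth projective complete intersections in toric
varieties (Scholze).

The proof: the tensor product of two mw pure representations of weights `i` and `j` is mw pure of weight
`i + j` (one decomposes the representations, using bases adapted to `N` of Frobenius generalised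
eigenvectors, and the tensor products of such bases), finite direct sums and direct factors of mw pure
representations of weight `i` are mw pure. So by the Künneth formula and the exact sequences the class of
the schemes with mw pure cohomology with compact supports has the closure properties of the class
`Built`. That the class `Built k n` contains the systems in (2) is a theorem of earlier work on such
classes.
-/

set_option autoImplicit false

open CategoryTheory AlgebraicGeometry Pool.Agent.Y116.UV Pool.Agent.H89.Dev Pool.Agent.H89.MW
  Pool.Agent.H79.MW Pool.Agent.W5h68.SP Pool.Agent.W5h68.PJ

universe u v

namespace Pool.Agent.Results.MP_855f4c_ag.ReadOnceFormulas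

/-- **The monodromy-weight conjecture, products, and systems of equations between read-once formulas.**
See the explanations above. -/
theorem result {k : Type} [Field k] [CharZero k] {Ω : Type u} [Field Ω] [CharZero Ω]
    [IsAlgClosed Ω] {q : ℕ} (hq : 1 < q) {H : ℤ → ℤ → Sch k → Rep.{u, v} Ω}
    (hH : IsWeightCohomologyK q H) {Q : Sch k → Prop} (hQ : IsClass Q) {n : ℕ}
    (hM : ModelsIn Q n) :
    (ForClass Q (MonodromyWeight q H) n ↔
      ∀ X : Sch k, Pool.Agent.W5h68.BT.Built k n X → AllPure q H X) ∧
    (ForClass Q (MonodromyWeight q H) n →
      ReadOnceSystems k n (AllPure q H) ∧ ProjectiveSystems k n (AllPure q H) ∧
      ProjectiveSystems k n (MonodromyWeight q H)) := by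
  have h1 := class_iff_built hq hH hQ hM
  refine ⟨h1, fun h => ?_⟩
  have h2 := h1.mp h
  refine ⟨fun r σ f hf S hS => h2 _ (Pool.Agent.W5h68.BT.readOnce_built n r σ f hf S hS),
    fun r σ f w a1 a2 a3 S a4 a5 X i a6 a7 =>
      h2 _ (Pool.Agent.W5h68.BT.projective_built n r σ f w a1 a2 a3 S a4 a5 X i a6 a7),
    fun r σ f w a1 a2 a3 S a4 a5 X i a6 a7 m =>
      h2 _ (Pool.Agent.W5h68.BT.projective_built n r σ f w a1 a2 a3 S a4 a5 X i a6 a7) m m⟩

end Pool.Agent.Results.MP_855f4c_ag.ReadOnceFormulas
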